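import Pool.Agent.R206.GD.ConPulse
import Pool.Agent.R206.GD.Fin

/-!
# Non-monotone travelling waves in the gene-drive system (MP_b6986b_an)

For `r = 1` and every `s > 1/2` close enough to `1/2` there is a nontrivial stationary travelling
wave `(P, N)` (speed `c = 0`) with `P` not nondecreasing and `N` not decreasing.  So the assertion
that every nontrivial travelling wave is monotonic is false.
-/

namespace Pool.Agent.Results.MP_b6986b_an.NonMonotoneWaves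

open Filter Topology

/-- The reaction-diffusion system of the problem for `p(t,x)`, `n(t,x)` on the line. -/
def SolvesSystem (s r : ℝ) (p n : ℝ → ℝ → ℝ) : Prop := ∀ t x : ℝ,
  deriv (fun τ => p τ x) t - deriv (deriv (p t)) x
      - 2 * deriv (fun y => Real.log (n t y)) x * deriv (p t) x
    = (r * (1 - n t x) + 1) * s * p t x * (1 - p t x) * (p t x - (2 * s - 1) / s) ∧
  deriv (fun τ => n τ x) t - deriv (deriv (n t)) x
    = n t x * ((1 - s + s * (1 - p t x) ^ 2) * (r * (1 - n t x) + 1) - 1)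

/-- Travelling wave of speed `c`: a bounded classical solution `(P, N)(x - c t)` with `P ≥ 0`,
`N > 0` and `(P, N)(ξ) → (0, 1)` as `ξ → -∞`. -/
def IsTravellingWave (s r c : ℝ) (P N : ℝ → ℝ) : Prop :=
  ContDiff ℝ 2 P ∧ ContDiff ℝ 2 N ∧ (∃ C : ℝ, ∀ ξ, |P ξ| ≤ C ∧ |N ξ| ≤ C) ∧
  (∀ ξ, 0 ≤ P ξ) ∧ (∀ ξ, 0 < N ξ) ∧
  Tendsto P atBot (𝓝 0) ∧ Tendsto N atBot (𝓝 1) ∧
  SolvesSystem s r (fun t x => P (x - c * t)) (fun t x => N (x - c * t))

/-- Nontrivial: `P` is not identically zero. -/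
def Nontriv (P : ℝ → ℝ) : Prop := ¬ ∀ ξ, P ξ = 0

/-- For `r = 1` and all `s` slightly above `1/2` there is a nontrivial stationary wave for which
`P` is not nondecreasing and `N` is not decreasing (not even nonincreasing). -/
theorem result :
    ∃ s₀ : ℝ, 1 / 2 < s₀ ∧ s₀ < 1 ∧ ∀ s : ℝ, 1 / 2 < s → s < s₀ →
      ∃ P N : ℝ → ℝ, IsTravellingWave s 1 0 P N ∧ Nontriv P ∧ ¬ Monotone P ∧ ¬ Antitone N := by
  refine ⟨1 / 2 + 2 / 10 ^ 24, by norm_num, by norm_num, ?_⟩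
  intro s hs1 hs2
  have hpos : 0 < (2 * s - 1) / 4 := by linarith
  have ha : 0 < Real.sqrt ((2 * s - 1) / 4) := Real.sqrt_pos.mpr hpos
  have hsq : Real.sqrt ((2 * s - 1) / 4) ^ 2 = (2 * s - 1) / 4 := Real.sq_sqrt hpos.le
  have ha2 : Real.sqrt ((2 * s - 1) / 4) ≤ 1 / 10 ^ 12 := by
    rw [Real.sqrt_le_left (by norm_num)]
    have : (1 / 10 ^ 12 : ℝ) ^ 2 = 1 / 10 ^ 24 := by norm_num
    rw [this]
    linarith
  obtain ⟨U, V, M, Y, hsol⟩ := Pool.Agent.R206.GD.sol_exists ha ha2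
  obtain ⟨P, N, hw, h0, h1, h2⟩ := Pool.Agent.R206.GD.wave_of_sol ha ha2 hsol
  have hs : Pool.Agent.R206.GD.sp (Real.sqrt ((2 * s - 1) / 4)) = s := by
    unfold Pool.Agent.R206.GD.sp
    rw [hsq]
    ring
  rw [hs] at hw
  exact ⟨P, N, hw, h0, h1, h2⟩

end Pool.Agent.Results.MP_b6986b_an.NonMonotoneWaves
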